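import Pool.Agent.H590.PL.Stm

set_option autoImplicit false

open MeasureTheory Filter Topology Set
open scoped BigOperators ENNReal

namespace H163PLD

open H590PL

set_option linter.unusedSectionVars false

variable {κ : Type} [Fintype κ]

lemma cont_ip (v : P2) : Continuous (fun x => ip v x) := by
  unfold ip
  fun_prop

lemma cont_tau {p : ℝ} (hp : 0 < p) (v : κ → P2) (k : κ) : Continuous (tau p v k) := by
  unfold tau
  exact (cont_ip _).abs.rpow_const (fun _ => Or.inr hp.le)

lemma tau_nonneg (p : ℝ) (v : κ → P2) (k : κ) (x : P2) : 0 ≤ tau p v k x :=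
  Real.rpow_nonneg (abs_nonneg _) _

lemma Ph_one (p : ℝ) (v : κ → P2) (x : P2) : Ph p v one x = ∑ k, tau p v k x := by
  unfold Ph one tau
  simp

lemma cont_Ph {p : ℝ} (hp : 0 < p) (v : κ → P2) : Continuous (Ph p v one) := by
  have : Ph p v one = fun x => ∑ k, tau p v k x := funext (Ph_one p v)
  rw [this]
  exact continuous_finsetSum _ fun k _ => cont_tau hp v k

lemma tau_le (p : ℝ) (v : κ → P2) (k : κ) (x : P2) : tau p v k x ≤ Ph p v one x := by
  rw [Ph_one]
  exact Finset.single_le_sum (f := fun k => tau p v k x) (fun j _ => tau_nonneg p v j x)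
    (Finset.mem_univ k)

lemma Ph_bu (p : ℝ) (v : κ → P2) (k : κ) (y : ℝ) (x : P2) :
    Ph p v (bu k y) x = Ph p v one x + y * tau p v k x := by
  classical
  have hb : ∀ j, bu k y j * |ip (v j) x| ^ p =
      one j * |ip (v j) x| ^ p + if j = k then y * tau p v k x else 0 := by
    intro j
    unfold bu one tau
    by_cases h : j = k
    · subst h
      rw [Function.update_self, if_pos rfl]
      ring
    · rw [Function.update_of_ne h, if_neg h, add_zero]
  unfold Ph
  rw [Finset.sum_congr rfl fun j _ => hb j, Finset.sum_add_distrib, Finset.sum_ite_eq']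
  simp

lemma tau_scale {p : ℝ} (hp : 0 < p) (v : κ → P2) (k : κ) (x : P2) :
    tau p (fun j => ((1 / 2 : ℝ) ^ (1 / p)) • v j) k x = 1 / 2 * tau p v k x := by
  unfold tau
  have h1 : ip (((1 / 2 : ℝ) ^ (1 / p)) • v k) x = (1 / 2 : ℝ) ^ (1 / p) * ip (v k) x := by
    unfold ip
    simp only [Prod.smul_fst, Prod.smul_snd, smul_eq_mul]
    ring
  have h2 : (0 : ℝ) ≤ (1 / 2 : ℝ) ^ (1 / p) := Real.rpow_nonneg (by norm_num) _
  have h3 : ((1 / 2 : ℝ) ^ (1 / p)) ^ p = 1 / 2 := by
    rw [← Real.rpow_mul (by norm_num), one_div_mul_cancel hp.ne', Real.rpow_one]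
  simp only [h1]
  rw [abs_mul, abs_of_nonneg h2, Real.mul_rpow h2 (abs_nonneg _), h3]

/-- integrability of `τ_k exp (-Φ/2)` -/
lemma int_half (h : S_IF) {p : ℝ} (hp : 1 < p) (hp2 : p ≤ 2) (v : κ → P2) (hv : Spans v) (k : κ) :
    Integrable (fun x : P2 => tau p v k x * Real.exp (-(1 / 2 * Ph p v one x))) := by
  have hp0 : 0 < p := by linarith
  have hs : Spans (fun j => ((1 / 2 : ℝ) ^ (1 / p)) • v j) := by
    obtain ⟨i, j, hij⟩ := hv
    refine ⟨i, j, ?_⟩
    have h2 : (0 : ℝ) < (1 / 2 : ℝ) ^ (1 / p) := Real.rpow_pos_of_pos (by norm_num) _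
    have e : dt (((1 / 2 : ℝ) ^ (1 / p)) • v i) (((1 / 2 : ℝ) ^ (1 / p)) • v j) =
        ((1 / 2 : ℝ) ^ (1 / p)) ^ 2 * dt (v i) (v j) := by
      unfold dt
      simp only [Prod.smul_fst, Prod.smul_snd, smul_eq_mul]
      ring
    rw [e]
    exact mul_ne_zero (pow_ne_zero _ h2.ne') hij
  have h1 := ((h κ p hp hp2 _ hs).2.2 k).1
  refine (h1.const_mul 2).congr (Filter.Eventually.of_forall fun x => ?_)
  show 2 * (Real.exp (-(Ph p (fun j => ((1 / 2 : ℝ) ^ (1 / p)) • v j) one x)) *
    tau p (fun j => ((1 / 2 : ℝ) ^ (1 / p)) • v j) k x) = _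
  rw [Ph_one, Finset.sum_congr rfl fun j _ => tau_scale hp0 v j x, tau_scale hp0 v k x,
    ← Finset.mul_sum, ← Ph_one]
  ring

theorem DBF (h : S_IF) : S_DBF := by
  intro κ _ p hp hp2 v hv k
  have hp0 : 0 < p := by linarith
  have hI := h κ p hp hp2.le v hv
  have hcP := cont_Ph hp0 v
  have hcT := cont_tau hp0 v k
  have key := hasDerivAt_integral_of_dominated_loc_of_deriv_le (μ := (volume : Measure P2))
    (F := fun (y : ℝ) (x : P2) => Real.exp (-(Ph p v one x + y * tau p v k x)))
    (F' := fun (y : ℝ) (x : P2) => Real.exp (-(Ph p v one x + y * tau p v k x)) * (-(tau p v k x)))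
    (x₀ := (0 : ℝ)) (s := Metric.ball (0 : ℝ) (1 / 2))
    (bound := fun x : P2 => tau p v k x * Real.exp (-(1 / 2 * Ph p v one x)))
    (Metric.ball_mem_nhds _ (by norm_num))
    (Filter.Eventually.of_forall fun y => by
      have : Continuous (fun x : P2 => Real.exp (-(Ph p v one x + y * tau p v k x))) := by fun_prop
      exact this.aestronglyMeasurable)
    (by
      refine hI.1.congr (Filter.Eventually.of_forall fun x => ?_)
      show Real.exp (-(Ph p v one x)) = Real.exp (-(Ph p v one x + 0 * tau p v k x))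
      rw [zero_mul, add_zero])
    (by
      have : Continuous (fun x : P2 => Real.exp (-(Ph p v one x + 0 * tau p v k x)) * (-(tau p v k x))) := by
        fun_prop
      exact this.aestronglyMeasurable)
    (by
      refine Filter.Eventually.of_forall fun x y hy => ?_
      rw [Metric.mem_ball, dist_zero_right, Real.norm_eq_abs] at hy
      have h1 := tau_nonneg p v k x
      have h2 := tau_le p v k x
      show ‖Real.exp (-(Ph p v one x + y * tau p v k x)) * (-(tau p v k x))‖ ≤
        tau p v k x * Real.exp (-(1 / 2 * Ph p v one x))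
      rw [norm_mul, norm_neg, Real.norm_of_nonneg h1, Real.norm_of_nonneg (Real.exp_pos _).le, mul_comm]
      refine mul_le_mul_of_nonneg_left (Real.exp_le_exp.2 ?_) h1
      have h3 := (abs_lt.1 hy).1
      nlinarith)
    (int_half h hp hp2.le v hv k)
    (by
      refine Filter.Eventually.of_forall fun x y _ => ?_
      have h1 : HasDerivAt (fun y : ℝ => -(Ph p v one x + y * tau p v k x)) (-(tau p v k x)) y := by
        have h2 : HasDerivAt (fun y : ℝ => Ph p v one x + y * tau p v k x) (1 * tau p v k x) y :=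
          ((hasDerivAt_id y).mul_const (tau p v k x)).const_add (Ph p v one x)
        rw [one_mul] at h2
        exact h2.neg
      exact h1.exp)
  have h2 := key.2
  have e1 : (fun y => FF p v (bu k y)) =
      fun y => ∫ x : P2, Real.exp (-(Ph p v one x + y * tau p v k x)) := by
    funext y
    unfold FF
    refine integral_congr_ae (Filter.Eventually.of_forall fun x => ?_)
    show Real.exp (-(Ph p v (bu k y) x)) = _
    rw [Ph_bu]
  have e2 : -(TT p v k) =
      ∫ x : P2, Real.exp (-(Ph p v one x + 0 * tau p v k x)) * (-(tau p v k x)) := by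
    unfold TT
    rw [← integral_neg]
    refine integral_congr_ae (Filter.Eventually.of_forall fun x => ?_)
    show -(Real.exp (-(Ph p v one x)) * tau p v k x) =
      Real.exp (-(Ph p v one x + 0 * tau p v k x)) * (-(tau p v k x))
    rw [zero_mul, add_zero]
    ring
  rw [e1, e2]
  exact h2

end H163PLD
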